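import Pool.Agent.Helper84.T5g.Top

/-!
# T5g, line 10: the case `CaseSplitTwo` from the two ranges of the distance
-/

set_option autoImplicit false

namespace Pool.Agent.Helper98.S3Pg

open Finset Pool.Agent.Helper84.T5g Pool.Agent.Helper37.T5g

/-- short distance -/
def TwoNear (m : Sq) (k l' l : ℕ) : Prop :=
  CaseSplitTwo m k l' l ∧ 20 * (l - l') < 7 * SS m (sL m k l')

/-- middle distance -/
def TwoFar (m : Sq) (k l' l : ℕ) : Prop :=
  CaseSplitTwo m k l' l ∧ 7 * SS m (sL m k l') ≤ 20 * (l - l')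

/-- **line 10, `CaseSplitTwo`** -/
theorem splitTwo_of (h1 : Blk TwoNear RpC) (h2 : Blk TwoFar RpC) : Blk CaseSplitTwo RpC :=
  (h1.or h2).mono (fun m k l' l h => (Nat.lt_or_ge (20 * (l - l')) (7 * SS m (sL m k l'))).imp
    (fun h' => ⟨h, h'⟩) (fun h' => ⟨h, h'⟩)) (fun _ _ _ _ _ c hc => ⟨c, le_rfl, hc⟩)

end Pool.Agent.Helper98.S3Pg
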