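import Pool.Agent.Helper98.S3Pg.Defs
import Pool.Agent.Helper12.T5g.NumT2

/-!
# T5g, (S3'): the numbers
-/

set_option autoImplicit false

namespace Pool.Agent.Helper98.S3Pg

open Finset Pool.Agent.Helper27.T4 Pool.Agent.Helper84.T5g Pool.Agent.Helper37.T5g
open Pool.Agent.Helper5.ET (mask bb)
open Pool.Agent.Helper30.T5g (pz QF QT RT ez NL BP)
open Pool.Agent.Helper39.T5 Pool.Agent.Helper50.T5 Pool.Agent.Helper57.T5
open Pool.Agent.Helper3.T5 (MP)
open Pool.Agent.Helper48.T5g (SplitP)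
open Pool.Agent.Helper45.T5g (OK)
open Pool.Agent.Helper54.T5g (Zo ZU MSp SplitDig)

variable {m : Sq} {k l' l : ℕ}

/-- **the numbers of (S3')** -/
theorem num (hm : m.Ok) {k : ℕ} (hk : 1 ≤ k)
    [hQ : Pool.Agent.Helper30.T5g.BigQ m k] :
    ∃ l0 : ℕ, ∀ l' l (o o' : JF → ℕ), l0 ≤ l' →
    SplitDig m k l' l → SplitP m k (sL m k l') l' l → ef m k l' 0 < l →
    7 * SS m (sL m k l') ≤ 20 * (l - l') → l - l' ≤ 8 * SS m (sL m k l') →
    (∀ x, l' ≤ x → x ≤ ez m (sL m k l) l →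
      NL m k x = RT m k (sL m k l) * Jn m k (sL m k l) x) →
    ∀ nY : ℕ, (nY : ℝ) ≤ Real.sqrt (QT m k (sL m k l)) →
    E1 m k l' l ((MSp m k l' l o o').Ne + (MSp m k l' l o o').Ne' * QT m k (sL m k l)) *
      (nY * ((MSp m k l' l o o').C * (MSp m k l' l o o').Lam *
        (min (1 / (QT m k (sL m k l) : ℝ)) (((MSp m k l' l o o').Ne' : ℝ) /
          (MSp m k l' l o o').Ne) + 1 / (MSp m k l' l o o').q))) ≤
        Real.exp (-((SS m (sL m k l') : ℝ) / 50)) :=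
  Pool.Agent.Helper12.T5g.num_inst hm hk

/-- the unit of the lower window is small against the one of the upper window -/
theorem Un_short_mid (hm : m.Ok) (hk : 1 ≤ k) {s : ℕ} (h : SplitP m k s l' l)
    (hC : ∀ x, l' ≤ x → x ≤ ez m (sL m k l) l →
      NL m k x = RT m k (sL m k l) * Jn m k (sL m k l) x)
    (hD : 7 * SS m (sL m k l') ≤ 20 * (l - l')) :
    Un m k l' * (16 * RT m k (bL m k l')) ≤ Un m k l := by
  have h1 := Pool.Agent.Helper30.T5g.NL_lower m k h.le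
  have hez : l ≤ ez m (sL m k l) l := (Pool.Agent.Helper30.T5g.lt_ez hm _ l).le
  rw [hC l' le_rfl (h.le.trans hez), hC l h.le hez, mul_assoc] at h1
  have h2 := Nat.le_of_mul_le_mul_left h1 (Pool.Agent.Helper30.T5g.RT_pos m k (sL m k l))
  rw [h.s1] at h2
  have h3 : 16 * RT m k (bL m k l') ≤ (10 ^ 6) ^ (l - l') := by
    have e1 := Pool.Agent.Helper30.T5g.RT_le hm k (bL m k l')
    have hks := h.ks
    have e2 : 2 ^ 250 * SS m (bL m k l') ≤ SS m (sL m k l') := by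
      rw [h.b', h.s']
      calc 2 ^ 250 * SS m (s - k) ≤ SS m (s - k + 1) := SS_succ_ge hm _
        _ ≤ SS m s := SS_mono m (by omega)
    have e3 := SS_pos m (bL m k l')
    have e4 : SS m (bL m k l') + 1 ≤ l - l' := by
      norm_num at e2
      omega
    calc 16 * RT m k (bL m k l') ≤ 10 ^ 6 * (10 ^ 6) ^ SS m (bL m k l') :=
          Nat.mul_le_mul (by norm_num) e1
      _ = (10 ^ 6) ^ (SS m (bL m k l') + 1) := (pow_succ' _ _).symm
      _ ≤ _ := Nat.pow_le_pow_right (by norm_num) e4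
  rw [h.Un_lower hm, h.Un_upper, h.rL_succ]
  calc Jn m k (s + 1) l' * LL (QQ m k (s + 1)) (rL m k l' + 1) * (16 * RT m k (bL m k l'))
      ≤ Jn m k (s + 1) l' * LL (QQ m k (s + 1)) (rL m k l' + 1) * (10 ^ 6) ^ (l - l') :=
        Nat.mul_le_mul_left _ h3
    _ = (Jn m k (s + 1) l' * (10 ^ 6) ^ (l - l')) * LL (QQ m k (s + 1)) (rL m k l' + 1) := by ring
    _ ≤ _ := Nat.mul_le_mul_right _ h2

/-- **the lower window is short** -/
theorem Un_short' (hm : m.Ok) {k : ℕ} (hk : 1 ≤ k) : ∃ l0 : ℕ, ∀ l' l, l0 ≤ l' →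
    SplitP m k (sL m k l') l' l → 7 * SS m (sL m k l') ≤ 20 * (l - l') →
    (∀ x, l' ≤ x → x ≤ ez m (sL m k l) l →
      NL m k x = RT m k (sL m k l) * Jn m k (sL m k l) x) →
    Un m k l' * (16 * RT m k (bL m k l')) ≤ Un m k l :=
  ⟨0, fun _ _ _ h hD hC => Un_short_mid hm hk h hC hD⟩

end Pool.Agent.Helper98.S3Pg
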