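import Pool.Agent.Helper98.S3Pg.Defs
import Pool.Agent.Helper45.T5g.GoodT
import Pool.Agent.Helper4.T5g.GoodTCongr

/-!
# T5g, (S3'): the probability of `GoodT`, its keys
-/

set_option autoImplicit false

namespace Pool.Agent.Helper98.S3Pg

open Finset Pool.Agent.Helper27.T4 Pool.Agent.Helper84.T5g Pool.Agent.Helper37.T5g
open Pool.Agent.Helper5.ET (mask bb)
open Pool.Agent.Helper30.T5g (pz QF QT RT ez NL BP)
open Pool.Agent.Helper39.T5 Pool.Agent.Helper50.T5 Pool.Agent.Helper57.T5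
open Pool.Agent.Helper48.T5g (SplitP)
open Pool.Agent.Helper45.T5g (OK)
open Pool.Agent.Helper54.T5g (Zo ZU)
open Pool.Agent.Helper22.SL

variable {m : Sq} {k l' l : ℕ}

/-- **the probability** -/
theorem goodT_pr (hm : m.Ok) (qc : ∀ t, m.q t = m.q 0) (kc : ∀ t, m.kap t = m.kap 0) {k : ℕ}
    (hk : 1 ≤ k) [hQ : Pool.Agent.Helper30.T5g.BigQ m k] :
    ∃ l0 : ℕ, ∀ l' l, l0 ≤ l' → l' ≤ l →
    SplitP m k (sL m k l') l' l → ∀ K : Finset Key, keysOf m k l ⊆ K → keysOf m k l' ⊆ K →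
    PrG (Mk m k) K (fun w => ¬ GoodT m k l' l w)
      (3 * Real.exp (-(2 * (SS m (sL m k l) : ℝ)))) :=
  Pool.Agent.Helper45.T5g.goodT_pr hm qc kc hk

/-- **the keys** -/
theorem goodT_congr (hm : m.Ok) (hl : bb 0 ≤ mL m k l) (hl' : bb 0 ≤ mL m k l')
    (hr : 0 < rL m k l) {w w' : Key → ℕ} {P : Key → Prop}
    (h : ∀ q, q ∈ keysOf m k l ∨ q ∈ keysOf m k l' → P q → w q = w' q)
    (hP : ∀ a t f o y, P (Key.S a t f o y)) (hV : ∀ a L b, P (Key.V a L b))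
    (hg : GoodT m k l' l w) : GoodT m k l' l w' :=
  Pool.Agent.Helper4.T5g.goodT_congr hm hl hl' hr h hP hV hg

end Pool.Agent.Helper98.S3Pg
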